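import Pool.Agent.H93.PG.Targets

/-!
# Power-free shifts (`MP_32ebde_an`), exponents `≥ 2`: row SMC

Repetitions which contain a piece of a frame between two marker words, (4.4) of `H93_PG.md`.
-/

set_option autoImplicit false

open MeasureTheory Filter Topology Finset Pool.Agent.H93.PF Pool.Agent.H93.PG

namespace Pool.Agent.H89.PG

/-- two points of `B` have distance at least `L` -/
theorem gap_le {d : ℕ} {m : ℕ → ℕ} {c : CT d m} {D : TD c} {B : Set ℤ}
    {z : ℤ → Fin d} {col : ℤ → ℕ} (h : Tz D B z col) {u v : ℤ} (hu : u ∈ B) (hv : v ∈ B)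
    (huv : u < v) : u + D.L ≤ v := by
  obtain ⟨g, hg, hN⟩ := h.next u hu
  by_contra hcon
  have h1 : (D.L : ℤ) ≤ g := by
    rcases hg with hg | hg <;> omega
  exact hN.2.2 v huv (by omega) hv

theorem pf_SMC (hFRA : T_FRA) (hOCL : T_OCL) (hOCR : T_OCR) : T_SMC := by
  intro d m c D B z col hT q a b x x' hq hqL hx hax hxb hab hper
  have hfr := D.fr
  have hb0 := hfr.b0
  have hb1 := hfr.b1
  have hb2 := hfr.b2
  have hlen := hfr.len
  have hbig := D.big
  have hK2 := D.K2
  have hL : D.L = D.n + D.N0 := rfl
  have hY0 := c.t.Y0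
  -- the data of the left and the right side
  -- the left side: `x' - q - K < a`
  have hleft : x' - q - D.K < a := by
    by_contra hcon
    have hcon' : a ≤ x' - q - D.K := not_lt.1 hcon
    have hcopy : ∀ u : ℤ, x' - D.K ≤ u → u < x' + c.t.Y → z (u - q) = z u := by
      intro u hu1 hu2
      have h1 := hper (u - q) (by omega) (by omega)
      rw [← h1]
      congr 1
      omega
    obtain ⟨s, hs, hcase⟩ := hx
    -- start of a content
    have hcontent : ∀ g : ℕ, Nx B s g → x' = s + g + c.t.Y - D.n →
        (∀ i : ℕ, i < D.K → z (x' - 1 - i) = c.t.rt i) → False := by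
      intro g hN hx' hpre
      have hey : ∀ i : ℕ, i < c.t.Y → z (x' + i) = c.e := by
        intro i hi
        obtain ⟨hcol, k, hk, hw⟩ := hT.pp s hs g hN
        have hmem := D.cc.mem (col s) k hcol hk
        have hst : St c.t (D.pc (col s) k) := by
          have := hmem
          simp only [VV, Finset.mem_filter] at this
          exact this.2.2.1
        have hi' : i < D.n := by omega
        have h1 := hst i hi' hi
        have h2 := congrFun hw ⟨i, hi'⟩
        rw [h1, c.ye] at h2
        rw [← h2]
        show z (x' + i) = z (s + g + c.t.Y - D.n + ((i : ℕ) : ℤ))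
        rw [hx']
      have hO := (hOCL d m c D B z col hT (x' - q) (by
        intro i hi
        rw [← hey i hi, ← hcopy (x' + i) (by omega) (by omega)]
        congr 1
        ring)).1 (by
        intro i hi
        rw [← hpre i hi, ← hcopy (x' - 1 - i) (by omega) (by omega)]
        congr 1
        ring)
      obtain ⟨s1, hs1, g1, hN1, h1⟩ := hO
      have h2 := gap_le hT hN1.2.1 hN.2.1 (by omega)
      omega
    have hmu : Nx B s (D.L + 1) → x' = s + c.t.Y + D.k1 → False := by
      intro hN hx'
      have hO := (hOCL d m c D B z col hT (x' - q) (by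
        intro i hi
        have h1 := hT.f2 s hs hN i hi
        rw [← h1, ← hcopy (s + c.t.Y + D.k1 + i) (by omega) (by omega)]
        congr 1
        rw [hx']
        ring)).2 (by
        intro i hi
        have h1 := hT.f1 s hs hN (D.k1 - 1 - i) (by omega)
        rw [← h1, ← hcopy (s + c.t.Y + (D.k1 - 1 - i : ℕ)) (by omega) (by omega)]
        congr 1
        rw [hx']
        omega)
      obtain ⟨s1, hs1, hN1, h1⟩ := hO
      have h2 := gap_le hT hs1 hs (by omega)
      omega
    rcases hcase with ⟨hN, hx1, hx'⟩ | ⟨hN, ⟨hx1, hx'⟩ | ⟨hx1, hx'⟩⟩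
    · refine hcontent D.L hN (by rw [hx', hL]; push_cast; ring) ?_
      intro i hi
      have h1 := hT.fs s hs hN (D.N0 - 1 - i) (by omega)
      rw [hfr.pal i (by omega)] at h1
      rw [← h1]
      congr 1
      omega
    · exact hmu hN hx'
    · refine hcontent (D.L + 1) hN (by rw [hx', hL]; push_cast; ring) ?_
      intro i hi
      have h1 := hT.f3 s hs hN (D.k2 - 1 - i) (by omega)
      have h2 : D.k2 - 1 - (D.k2 - 1 - i) = i := by omega
      rw [h2] at h1
      rw [← h1]
      congr 1
      omega
  -- the right side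
  have hright : b < x + q + c.t.Y + D.K := by
    by_contra hcon
    have hcon' : x + q + c.t.Y + D.K ≤ b := not_lt.1 hcon
    have hcopy : ∀ u : ℤ, x ≤ u → u < x + c.t.Y + D.K → z (u + q) = z u := by
      intro u hu1 hu2
      exact hper u (by omega) (by omega)
    obtain ⟨s, hs, hcase⟩ := hx
    have hstart : x = s → (∀ i : ℕ, i < D.K → z (s + c.t.Y + i) = c.t.rt i) → False := by
      intro hx1 hrt
      have hO := (hOCR d m c D B z col hT (x + q) (by
        intro i hi
        rw [← hT.y0 s hs i hi, ← hcopy (s + i) (by omega) (by omega)]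
        congr 1
        rw [hx1]
        ring)).1 (by
        intro i hi
        rw [← hrt i hi, ← hcopy (s + c.t.Y + i) (by omega) (by omega)]
        congr 1
        rw [hx1]
        ring)
      have h2 := gap_le hT hs hO (by omega)
      omega
    rcases hcase with ⟨hN, hx1, hx'⟩ | ⟨hN, ⟨hx1, hx'⟩ | ⟨hx1, hx'⟩⟩
    · exact hstart hx1 fun i hi => hT.fs s hs hN i (by omega)
    · exact hstart hx1 fun i hi => hT.f1 s hs hN i (by omega)
    · have hO := (hOCR d m c D B z col hT (x + q) (by
        intro i hi
        rw [← hT.f2 s hs hN i hi, ← hcopy (s + c.t.Y + D.k1 + i) (by omega) (by omega)]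
        congr 1
        rw [hx1]
        ring)).2 (by
        intro i hi
        rw [← hT.f3 s hs hN i (by omega),
          ← hcopy (s + 2 * c.t.Y + D.k1 + i) (by omega) (by omega)]
        congr 1
        rw [hx1]
        ring)
      obtain ⟨s1, hs1, hN1, h1⟩ := hO
      have h2 := gap_le hT hs hs1 (by omega)
      omega
  obtain ⟨s, hs, hcase⟩ := hx
  rcases hcase with ⟨hN, hx1, hx'⟩ | ⟨hN, ⟨hx1, hx'⟩ | ⟨hx1, hx'⟩⟩ <;> omega

end Pool.Agent.H89.PG

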